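import Pool.Agent.R676.Cox.Plane
import Pool.Agent.Helper376.LC.Cox

/-!
Key theorem for classes of twisted involutions.
-/

set_option autoImplicit false

namespace Pool.Agent.R676.Cox

open CoxeterSystem
open Pool.Agent.Helper376.LC (eta eta_mul eta_simple eta_one eta_self mem_Ninv_iff zmod2_cases)

variable {B : Type*} {M : CoxeterMatrix B} {W : Type*} [Group W]

/-- `NN x t = 1` iff `t` is a left inversion of `x` -/
noncomputable def NN (cs : CoxeterSystem M W) (x t : W) : ZMod 2 := eta cs x⁻¹ t

variable {cs : CoxeterSystem M W}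

lemma NN_mul (x y t : W) : NN cs (x * y) t = NN cs x t + NN cs y (x⁻¹ * t * x) := by
  rw [NN, NN, NN, mul_inv_rev, eta_mul, inv_inv]

lemma NN_one (t : W) : NN cs 1 t = 0 := by
  rw [NN, inv_one, eta_one]

lemma NN_iff (x t : W) : NN cs x t = 1 ↔ cs.IsLeftInversion x t := by
  rw [NN, ← mem_Ninv_iff]; rfl

lemma NN_simple_eq_one (i : B) (t : W) : NN cs (cs.simple i) t = 1 ↔ t = cs.simple i := by
  classical
  rw [NN, cs.inv_simple, eta_simple]
  by_cases h : t = cs.simple i
  · simp [h]
  · simp [h]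

lemma NN_simple_ne {i : B} {t : W} (h : t ≠ cs.simple i) : NN cs (cs.simple i) t = 0 := by
  rcases zmod2_cases (NN cs (cs.simple i) t) with h1 | h1
  · exact h1
  · exact absurd ((NN_simple_eq_one i t).mp h1) h

lemma NN_self {t : W} (ht : cs.IsReflection t) : NN cs t t = 1 := by
  rw [NN, ht.inv, eta_self cs ht]

lemma NN_zero_iff {x t : W} (ht : cs.IsReflection t) :
    NN cs x t = 0 ↔ cs.length x < cs.length (t * x) := by
  have h0 := ht.length_mul_right_ne x
  constructor
  · intro h
    by_contra hcon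
    have h1 : cs.IsLeftInversion x t := ⟨ht, by omega⟩
    rw [← NN_iff, h] at h1
    exact absurd h1 (by decide)
  · intro h
    rcases zmod2_cases (NN cs x t) with h1 | h1
    · exact h1
    · have := ((NN_iff x t).mp h1).2
      omega

lemma NN_one_iff {x t : W} (ht : cs.IsReflection t) :
    NN cs x t = 1 ↔ cs.length (t * x) < cs.length x := by
  rw [NN_iff]
  exact ⟨fun h => h.2, fun h => ⟨ht, h⟩⟩

/-- the automorphism maps the set of simple reflections onto itself -/
def IsAutS (cs : CoxeterSystem M W) (θ : MulAut W) : Prop :=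
  θ '' Set.range cs.simple = Set.range cs.simple

lemma IsAutS.simple {θ : MulAut W} (h : IsAutS cs θ) (i : B) : ∃ j, θ (cs.simple i) = cs.simple j := by
  have h1 : θ (cs.simple i) ∈ θ '' Set.range cs.simple := ⟨_, ⟨i, rfl⟩, rfl⟩
  rw [h] at h1
  obtain ⟨j, hj⟩ := h1
  exact ⟨j, hj.symm⟩

lemma IsAutS.inv {θ : MulAut W} (h : IsAutS cs θ) : IsAutS cs θ⁻¹ := by
  unfold IsAutS at h ⊢
  conv_lhs => rw [← h]
  rw [← Set.image_comp]
  have h1 : (⇑(θ⁻¹) ∘ ⇑θ) = id := by
    funext z
    simp
  rw [h1, Set.image_id]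

lemma IsAutS.length_le {θ : MulAut W} (h : IsAutS cs θ) (w : W) : cs.length (θ w) ≤ cs.length w := by
  obtain ⟨ω, hred, rfl⟩ := cs.exists_isReduced w
  rw [hred.eq]
  have key : ∀ ω : List B, ∃ ω' : List B, ω'.length = ω.length ∧
      θ (cs.wordProd ω) = cs.wordProd ω' := by
    intro ω
    induction ω with
    | nil => exact ⟨[], rfl, by simp⟩
    | cons i ω ih =>
      obtain ⟨ω', h1, h2⟩ := ih
      obtain ⟨j, hj⟩ := h.simple i
      exact ⟨j :: ω', by simp [h1], by rw [wordProd_cons, map_mul, h2, hj, wordProd_cons]⟩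
  obtain ⟨ω', h1, h2⟩ := key ω
  rw [h2, ← h1]
  exact cs.length_wordProd_le ω'

lemma IsAutS.length {θ : MulAut W} (h : IsAutS cs θ) (w : W) : cs.length (θ w) = cs.length w := by
  apply le_antisymm (h.length_le w)
  have h1 := h.inv.length_le (θ w)
  simpa using h1

lemma IsAutS.refl {θ : MulAut W} (h : IsAutS cs θ) {t : W} (ht : cs.IsReflection t) :
    cs.IsReflection (θ t) := by
  obtain ⟨w, i, rfl⟩ := ht
  obtain ⟨j, hj⟩ := h.simple i
  exact ⟨θ w, j, by rw [map_mul, map_mul, map_inv, hj]⟩

lemma IsAutS.refl_iff {θ : MulAut W} (h : IsAutS cs θ) {t : W} :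
    cs.IsReflection (θ t) ↔ cs.IsReflection t := by
  constructor
  · intro h1
    have h2 := h.inv.refl h1
    simpa using h2
  · exact h.refl

lemma IsAutS.NN {θ : MulAut W} (h : IsAutS cs θ) (x t : W) : NN cs (θ x) (θ t) = NN cs x t := by
  have h1 : Cox.NN cs (θ x) (θ t) = 1 ↔ Cox.NN cs x t = 1 := by
    rw [NN_iff, NN_iff]
    unfold CoxeterSystem.IsLeftInversion
    rw [h.refl_iff, ← map_mul, h.length, h.length]
  rcases zmod2_cases (Cox.NN cs (θ x) (θ t)) with h2 | h2 <;>
    rcases zmod2_cases (Cox.NN cs x t) with h3 | h3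
  · rw [h2, h3]
  · have := h1.mpr h3
    rw [h2] at this
    exact absurd this (by decide)
  · have := h1.mp h2
    rw [h3] at this
    exact absurd this (by decide)
  · rw [h2, h3]

lemma NN_invol {θ : MulAut W} (h : IsAutS cs θ) {x : W} (hx : x * θ x = 1) (t : W) :
    NN cs x (x * θ t * x⁻¹) = NN cs x t := by
  have h1 := NN_mul (cs := cs) x (θ x) (x * θ t * x⁻¹)
  rw [hx, NN_one, show x⁻¹ * (x * θ t * x⁻¹) * x = θ t by group, h.NN] at h1
  rcases zmod2_cases (NN cs x (x * θ t * x⁻¹)) with h2 | h2 <;>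
    rcases zmod2_cases (NN cs x t) with h3 | h3 <;> rw [h2, h3] at h1 ⊢ <;>
    exact absurd h1 (by decide)

lemma zmod2_add_cancel {a b c : ZMod 2} (h : a = b + c) : a + b = c := by
  revert a b c; decide

/-- The reflections of an infinite dihedral reflection subgroup. -/
theorem infinite_case {θ : MulAut W} (h : IsAutS cs θ) {x r : W} (hx : x * θ x = 1)
    (hr : cs.IsReflection r) (hθr : θ (θ r) = r)
    (hinf : ¬ IsOfFinOrder (r * (x * θ r * x⁻¹))) :
    ∃ t' t'', cs.IsReflection t' ∧ cs.IsReflection t'' ∧ t'' * t' = r * (x * θ r * x⁻¹) ∧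
      NN cs x t' ≠ NN cs (r * (x * θ r * x⁻¹) * x) t'' := by
  set q : W := x * θ r * x⁻¹ with hq
  have hqr : cs.IsReflection q := (h.refl hr).conj x
  have hr2 : r * r = 1 := hr.mul_self
  have hq2 : q * q = 1 := hqr.mul_self
  have hri : r⁻¹ = r := hr.inv
  have hqi : q⁻¹ = q := hqr.inv
  set ρ : W := r * q with hρ
  have hρi : ρ⁻¹ = q * r := by rw [hρ, mul_inv_rev, hri, hqi]
  -- the reflections
  let R : ℤ → W := fun k => ρ ^ k * q
  have hRdef : ∀ k, R k = ρ ^ k * q := fun k => rfl
  have hqρ : ∀ k : ℤ, q * ρ ^ k = ρ ^ (-k) * q := by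
    intro k
    have h1 : q * ρ * q⁻¹ = ρ⁻¹ := by
      rw [hρi, hρ, hqi]
      simp only [mul_assoc, hq2, mul_one]
    have h2 : q * ρ ^ k * q⁻¹ = ρ ^ (-k) := by
      rw [← conj_zpow, h1, inv_zpow, zpow_neg]
    rw [← h2]
    group
  have hR1 : R 1 = r := by
    rw [hRdef, zpow_one, hρ, mul_assoc, hq2, mul_one]
  have hR0 : R 0 = q := by rw [hRdef, zpow_zero, one_mul]
  have hconj : ∀ j k : ℤ, ρ ^ j * R k * (ρ ^ j)⁻¹ = R (k + 2 * j) := by
    intro j k
    rw [hRdef, hRdef, ← zpow_neg, mul_assoc, mul_assoc, hqρ (-j), neg_neg, ← mul_assoc, ← mul_assoc,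
      ← zpow_add, ← zpow_add]
    congr 2
    ring
  have hRrefl : ∀ k, cs.IsReflection (R k) := by
    intro k
    rcases Int.even_or_odd' k with ⟨j, hj | hj⟩
    · have h1 := hconj j 0
      rw [zero_add, ← hj, hR0] at h1
      rw [← h1]
      exact hqr.conj _
    · have h1 := hconj j 1
      rw [add_comm, ← hj, hR1] at h1
      rw [← h1]
      exact hr.conj _
  have hprod : ∀ k, R (k + 1) * R k = ρ := by
    intro k
    rw [hRdef, hRdef, mul_assoc, ← mul_assoc q, hqρ k, mul_assoc, hq2, mul_one, ← zpow_add]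
    rw [show k + 1 + -k = 1 by ring, zpow_one]
  have hrR : ∀ k, r * R k * r = R (2 - k) := by
    intro k
    have h1 : r = ρ * q := by rw [hρ, mul_assoc, hq2, mul_one]
    calc r * R k * r = (ρ * q) * (ρ ^ k * q) * (ρ * q) := by rw [← h1]
      _ = ρ * (q * ρ ^ k) * (q * ρ ^ (1 : ℤ)) * q := by rw [zpow_one]; simp only [mul_assoc]
      _ = ρ * (ρ ^ (-k) * q) * (ρ ^ (-1 : ℤ) * q) * q := by rw [hqρ, hqρ]
      _ = ρ * ρ ^ (-k) * (q * ρ ^ (-1 : ℤ)) * (q * q) := by simp only [mul_assoc]
      _ = ρ ^ (1 : ℤ) * ρ ^ (-k) * (ρ ^ (1 : ℤ) * q) := by rw [hqρ, hq2, mul_one, neg_neg, zpow_one]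
      _ = ρ ^ (2 - k) * q := by
          rw [← mul_assoc, ← zpow_add, ← zpow_add]
          congr 2
          ring
  have hqR : ∀ k, q * R k * q = R (-k) := by
    intro k
    calc q * R k * q = (q * ρ ^ k) * (q * q) := by rw [hRdef]; simp only [mul_assoc]
      _ = R (-k) := by rw [hqρ, hq2, mul_one]
  -- action of c
  have hcr : x * θ r * x⁻¹ = q := rfl
  have hθx : θ x = x⁻¹ := by
    rw [eq_comm, inv_eq_iff_mul_eq_one]; exact hx
  have hcq : x * θ q * x⁻¹ = r := by
    rw [hq, map_mul, map_mul, map_inv, hθx, hθr]; group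
  have hcρ : ∀ k : ℤ, x * θ (ρ ^ k) * x⁻¹ = ρ ^ (-k) := by
    intro k
    have h1 : x * θ ρ * x⁻¹ = ρ⁻¹ := by
      rw [hρi, hρ, map_mul]
      calc x * (θ r * θ q) * x⁻¹ = (x * θ r * x⁻¹) * (x * θ q * x⁻¹) := by group
        _ = q * r := by rw [hcq]
    rw [map_zpow, ← conj_zpow, h1, inv_zpow, zpow_neg]
  have hcR : ∀ k, x * θ (R k) * x⁻¹ = R (1 - k) := by
    intro k
    calc x * θ (R k) * x⁻¹ = (x * θ (ρ ^ k) * x⁻¹) * (x * θ q * x⁻¹) := by
          rw [hRdef, map_mul]; group
      _ = ρ ^ (-k) * (ρ * q) := by rw [hcρ, hcq, hρ, mul_assoc, hq2, mul_one]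
      _ = ρ ^ (1 - k) * q := by
          rw [← mul_assoc, ← zpow_add_one]
          congr 2
          ring
  by_contra hcon
  push Not at hcon
  have hI : ∀ k, NN cs x (R k) = NN cs (ρ * x) (R (k + 1)) := fun k =>
    hcon (R k) (R (k + 1)) (hRrefl _) (hRrefl _) (hprod k)
  have hA : ∀ k, NN cs x (R (1 - k)) = NN cs x (R k) := by
    intro k
    rw [← hcR, NN_invol h hx]
  have hE : ∀ k, NN cs (ρ * x) (R k) = NN cs ρ (R k) + NN cs x (R (k - 2)) := by
    intro k
    rw [NN_mul]
    congr 2
    have h1 := hconj (-1) k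
    rw [zpow_neg_one, inv_inv] at h1
    rw [h1]
    congr 1
  have hE2 : ∀ k, NN cs ρ (R k) = NN cs r (R k) + NN cs q (R (2 - k)) := by
    intro k
    rw [hρ, NN_mul, hri, hrR]
  have hRs : ∀ k, NN cs r (R (2 - k)) = NN cs r (R k) := by
    intro k
    have h1 := NN_mul (cs := cs) r r (R k)
    rw [hr2, NN_one, hri, hrR] at h1
    have h2 := zmod2_add_cancel h1
    rw [zero_add] at h2
    exact h2.symm
  have hQs : ∀ k, NN cs q (R (-k)) = NN cs q (R k) := by
    intro k
    have h1 := NN_mul (cs := cs) q q (R k)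
    rw [hq2, NN_one, hqi, hqR] at h1
    have h2 := zmod2_add_cancel h1
    rw [zero_add] at h2
    exact h2.symm
  -- step relation
  have hstep : ∀ k, NN cs x (R k) + NN cs x (R (k - 1)) = NN cs ρ (R (k + 1)) := by
    intro k
    have h1 := hI k
    rw [hE, show k + 1 - 2 = k - 1 by ring] at h1
    rw [h1, add_assoc, CharTwo.add_self_eq_zero, add_zero]
  have hEs : ∀ k, NN cs ρ (R (4 - k)) = NN cs ρ (R k) := by
    intro k
    have h1 := hstep (3 - k)
    have h2 := hstep (k - 1)
    rw [show 3 - k + 1 = 4 - k by ring, show 3 - k - 1 = 2 - k by ring] at h1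
    rw [show k - 1 + 1 = k by ring, show k - 1 - 1 = k - 2 by ring] at h2
    have h3 := hA (k - 2)
    have h4 := hA (k - 1)
    rw [show 1 - (k - 2) = 3 - k by ring] at h3
    rw [show 1 - (k - 1) = 2 - k by ring] at h4
    rw [← h1, ← h2, h3, h4, add_comm]
  have hR4 : ∀ k, NN cs r (R (4 - k)) = NN cs r (R k) := by
    intro k
    have h1 := hEs k
    rw [hE2, hE2, show 2 - (4 - k) = -(2 - k) by ring, hQs] at h1
    exact add_right_cancel h1
  have hper : ∀ k, NN cs r (R (k + 2)) = NN cs r (R k) := by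
    intro k
    have h1 := hR4 (k + 2)
    rw [show 4 - (k + 2) = 2 - k by ring, hRs] at h1
    exact h1.symm
  have hodd : ∀ j : ℕ, NN cs r (R (1 + 2 * j)) = 1 := by
    intro j
    induction j with
    | zero => simp only [Nat.cast_zero, mul_zero, add_zero, hR1]; exact NN_self hr
    | succ j ih =>
      rw [show (1 : ℤ) + 2 * ((j + 1 : ℕ) : ℤ) = (1 + 2 * j) + 2 by push_cast; ring, hper, ih]
  -- infinitely many inversions
  have hfin : {t : W | Helper376.LC.eta cs r⁻¹ t = 1}.Finite := by
    obtain ⟨s, hs, -⟩ := Helper376.LC.Ninv_eq cs r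
    have h1 : {t : W | Helper376.LC.eta cs r⁻¹ t = 1} = ↑s := by
      rw [← hs]
      ext t
      rw [mem_Ninv_iff]
      rfl
    rw [h1]
    exact s.finite_toSet
  have hinj : Function.Injective (fun j : ℕ => R (1 + 2 * j)) := by
    intro j k hjk
    simp only [hRdef] at hjk
    have h1 : ρ ^ (1 + 2 * (j : ℤ)) = ρ ^ (1 + 2 * (k : ℤ)) := mul_right_cancel hjk
    have h2 := (injective_zpow_iff_not_isOfFinOrder.mpr hinf) h1
    omega
  apply Set.infinite_of_injective_forall_mem hinj (s := {t : W | Helper376.LC.eta cs r⁻¹ t = 1})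
  · intro j
    exact hodd j
  · exact hfin

lemma parity_mul_odd {a b : W} (ha : Odd (cs.length a)) (hb : Even (cs.length b)) :
    Odd (cs.length (a * b)) := by
  have h1 := cs.length_mul_mod_two a b
  rw [Nat.odd_iff] at ha ⊢
  rw [Nat.even_iff] at hb
  omega

/-- an element of a dihedral standard parabolic subgroup -/
lemma dihedral_form (i j : B) {h : W}
    (hh : h ∈ Subgroup.closure ({cs.simple i, cs.simple j} : Set W)) :
    (Even (cs.length h) ∧ ∃ k : ℤ, h = (cs.simple i * cs.simple j) ^ k) ∨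
    (Odd (cs.length h) ∧ ∃ k : ℤ, h = (cs.simple i * cs.simple j) ^ k * cs.simple i) := by
  set ρ := cs.simple i * cs.simple j with hρ
  have hij : cs.simple i * ρ * (cs.simple i)⁻¹ = ρ⁻¹ := by
    rw [hρ, mul_inv_rev, cs.inv_simple, cs.inv_simple, ← mul_assoc, cs.simple_mul_simple_self, one_mul]
  have hi : ∀ k : ℤ, cs.simple i * ρ ^ k = ρ ^ (-k) * cs.simple i := by
    intro k
    have h2 : cs.simple i * ρ ^ k * (cs.simple i)⁻¹ = ρ ^ (-k) := by
      rw [← conj_zpow, hij, inv_zpow, zpow_neg]
    rw [← h2]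
    group
  have hj : ∀ g : W, cs.simple j * g = ρ⁻¹ * (cs.simple i * g) := by
    intro g
    rw [hρ, mul_inv_rev, cs.inv_simple, cs.inv_simple, mul_assoc,
      ← mul_assoc (cs.simple i) (cs.simple i), cs.simple_mul_simple_self, one_mul]
  have hpar : ∀ (k : B) (g : W), (Even (cs.length g) → Odd (cs.length (cs.simple k * g))) ∧
      (Odd (cs.length g) → Even (cs.length (cs.simple k * g))) := by
    intro k g
    have h1 := cs.length_simple_mul g k
    constructor
    · intro h2
      rw [Nat.even_iff] at h2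
      rw [Nat.odd_iff]
      omega
    · intro h2
      rw [Nat.odd_iff] at h2
      rw [Nat.even_iff]
      omega
  have hstep : ∀ g : W, ∀ k ∈ ({i, j} : Set B),
    ((Even (cs.length g) ∧ ∃ k : ℤ, g = ρ ^ k) ∨
    (Odd (cs.length g) ∧ ∃ k : ℤ, g = ρ ^ k * cs.simple i)) →
    ((Even (cs.length (cs.simple k * g)) ∧ ∃ k' : ℤ, cs.simple k * g = ρ ^ k') ∨
    (Odd (cs.length (cs.simple k * g)) ∧ ∃ k' : ℤ, cs.simple k * g = ρ ^ k' * cs.simple i)) := by
    intro g k hk hg
    rcases hg with ⟨hg1, m, hm⟩ | ⟨hg1, m, hm⟩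
    · right
      refine ⟨(hpar k g).1 hg1, ?_⟩
      rcases hk with rfl | hk
      · exact ⟨-m, by rw [hm, hi]⟩
      · rw [Set.mem_singleton_iff] at hk
        subst hk
        refine ⟨-1 + -m, ?_⟩
        rw [hj, hm, hi, ← mul_assoc, ← zpow_neg_one, ← zpow_add]
    · left
      refine ⟨(hpar k g).2 hg1, ?_⟩
      rcases hk with rfl | hk
      · exact ⟨-m, by rw [hm, ← mul_assoc, hi, mul_assoc, cs.simple_mul_simple_self, mul_one]⟩
      · rw [Set.mem_singleton_iff] at hk
        subst hk
        refine ⟨-1 + -m, ?_⟩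
        rw [hj, hm, ← mul_assoc (cs.simple i), hi, mul_assoc (ρ ^ (-m)), cs.simple_mul_simple_self,
          mul_one, ← zpow_neg_one, ← zpow_add]
  induction hh using Subgroup.closure_induction_left with
  | one => left; exact ⟨by simp, 0, by simp⟩
  | mul_left x hx y hy ih =>
    rcases hx with rfl | hx
    · exact hstep y i (Set.mem_insert _ _) ih
    · rw [Set.mem_singleton_iff] at hx
      subst hx
      exact hstep y j (Set.mem_insert_of_mem _ rfl) ih
  | inv_mul_cancel x hx y hy ih =>
    rcases hx with rfl | hx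
    · rw [cs.inv_simple]
      exact hstep y i (Set.mem_insert _ _) ih
    · rw [Set.mem_singleton_iff] at hx
      subst hx
      rw [cs.inv_simple]
      exact hstep y j (Set.mem_insert_of_mem _ rfl) ih

/-- odd elements of dihedral parabolic subgroups are reflections -/
lemma dihedral_odd (i j : B) {h : W}
    (hh : h ∈ Subgroup.closure ({cs.simple i, cs.simple j} : Set W)) (hodd : Odd (cs.length h)) :
    cs.IsReflection h := by
  rcases dihedral_form i j hh with ⟨h1, -⟩ | ⟨-, k, hk⟩
  · exact absurd hodd (Nat.not_odd_iff_even.mpr h1)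
  · set ρ := cs.simple i * cs.simple j with hρ
    have hij : cs.simple i * ρ * (cs.simple i)⁻¹ = ρ⁻¹ := by
      rw [hρ, mul_inv_rev, cs.inv_simple, cs.inv_simple, ← mul_assoc, cs.simple_mul_simple_self,
        one_mul]
    have hi : ∀ k : ℤ, cs.simple i * ρ ^ k = ρ ^ (-k) * cs.simple i := by
      intro k
      have h2 : cs.simple i * ρ ^ k * (cs.simple i)⁻¹ = ρ ^ (-k) := by
        rw [← conj_zpow, hij, inv_zpow, zpow_neg]
      rw [← h2]
      group
    rcases Int.even_or_odd' k with ⟨m, hm | hm⟩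
    · have h1 : h = ρ ^ m * cs.simple i * (ρ ^ m)⁻¹ := by
        rw [mul_assoc, ← zpow_neg, hi, neg_neg, ← mul_assoc, ← zpow_add, hk, hm, two_mul]
      rw [h1]
      exact (cs.isReflection_simple i).conj _
    · have h1 : h = ρ ^ m * (cs.simple i * cs.simple j * (cs.simple i)⁻¹) * (ρ ^ m)⁻¹ := by
        rw [mul_assoc, cs.inv_simple, mul_assoc (cs.simple i * cs.simple j), ← hρ, ← zpow_neg, hi,
          neg_neg, ← mul_assoc ρ, ← mul_assoc, ← zpow_one_add, ← zpow_add, hk, hm]
        congr 2
        ring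
      rw [h1]
      exact ((cs.isReflection_simple j).conj _).conj _

/-- discrete intermediate values -/
lemma ivt_up (S : Set B) {h : W} (hh : h ∈ Subgroup.closure (cs.simple '' S)) (x : W) (n : ℕ)
    (h1 : cs.length x < n) (h2 : n ≤ cs.length (h * x)) :
    ∃ g ∈ Subgroup.closure (cs.simple '' S), cs.length (g * x) = n := by
  induction hh using Subgroup.closure_induction_left with
  | one => rw [one_mul] at h2; omega
  | mul_left s hs y hy ih =>
    obtain ⟨i, hi, rfl⟩ := hs
    by_cases h3 : n ≤ cs.length (y * x)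
    · exact ih h3
    · have h4 := cs.length_simple_mul (y * x) i
      rw [← mul_assoc] at h4
      refine ⟨cs.simple i * y, Subgroup.mul_mem _ (Subgroup.subset_closure ⟨i, hi, rfl⟩) hy, ?_⟩
      omega
  | inv_mul_cancel s hs y hy ih =>
    obtain ⟨i, hi, rfl⟩ := hs
    rw [cs.inv_simple] at h2
    by_cases h3 : n ≤ cs.length (y * x)
    · exact ih h3
    · have h4 := cs.length_simple_mul (y * x) i
      rw [← mul_assoc] at h4
      refine ⟨cs.simple i * y, Subgroup.mul_mem _ (Subgroup.subset_closure ⟨i, hi, rfl⟩) hy, ?_⟩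
      omega

lemma ivt_down (S : Set B) {h : W} (hh : h ∈ Subgroup.closure (cs.simple '' S)) (x : W) (n : ℕ)
    (h1 : n < cs.length x) (h2 : cs.length (h * x) ≤ n) :
    ∃ g ∈ Subgroup.closure (cs.simple '' S), cs.length (g * x) = n := by
  induction hh using Subgroup.closure_induction_left with
  | one => rw [one_mul] at h2; omega
  | mul_left s hs y hy ih =>
    obtain ⟨i, hi, rfl⟩ := hs
    by_cases h3 : cs.length (y * x) ≤ n
    · exact ih h3
    · have h4 := cs.length_simple_mul (y * x) i
      rw [← mul_assoc] at h4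
      refine ⟨cs.simple i * y, Subgroup.mul_mem _ (Subgroup.subset_closure ⟨i, hi, rfl⟩) hy, ?_⟩
      omega
  | inv_mul_cancel s hs y hy ih =>
    obtain ⟨i, hi, rfl⟩ := hs
    rw [cs.inv_simple] at h2
    by_cases h3 : cs.length (y * x) ≤ n
    · exact ih h3
    · have h4 := cs.length_simple_mul (y * x) i
      rw [← mul_assoc] at h4
      refine ⟨cs.simple i * y, Subgroup.mul_mem _ (Subgroup.subset_closure ⟨i, hi, rfl⟩) hy, ?_⟩
      omega

/-- base case -/
theorem base_case {r q : W} {i j : B} (hr : cs.IsReflection r) (hq : cs.IsReflection q)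
    (h1 : r ∈ Subgroup.closure ({cs.simple i, cs.simple j} : Set W))
    (h2 : q ∈ Subgroup.closure ({cs.simple i, cs.simple j} : Set W))
    {x : W} (hne : cs.length (r * q * x) ≠ cs.length x) :
    ∃ t' t'', cs.IsReflection t' ∧ cs.IsReflection t'' ∧ t'' * t' = r * q ∧
      NN cs x t' ≠ NN cs (r * q * x) t'' := by
  have himg : ({cs.simple i, cs.simple j} : Set W) = cs.simple '' ({i, j} : Set B) := by
    rw [Set.image_pair]
  have hρ : r * q ∈ Subgroup.closure (cs.simple '' ({i, j} : Set B)) := by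
    rw [← himg]; exact Subgroup.mul_mem _ h1 h2
  have hpar : Even (cs.length (r * q)) := by
    have h3 := cs.length_mul_mod_two r q
    have h4 := hr.odd_length
    have h5 := hq.odd_length
    rw [Nat.odd_iff] at h4 h5
    rw [Nat.even_iff]
    omega
  have hpx := cs.length_mul_mod_two (r * q) x
  rw [Nat.even_iff] at hpar
  have main : ∀ g ∈ Subgroup.closure (cs.simple '' ({i, j} : Set B)),
      cs.length (g * x) % 2 ≠ cs.length x % 2 →
      cs.IsReflection g ∧ cs.IsReflection (r * q * g⁻¹) := by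
    intro g hg hpg
    have h6 := cs.length_mul_mod_two g x
    have h7 : cs.length g % 2 = 1 := by omega
    have h8 : cs.IsReflection g := by
      apply dihedral_odd i j (by rw [himg]; exact hg)
      rw [Nat.odd_iff]; exact h7
    refine ⟨h8, ?_⟩
    apply dihedral_odd i j
    · rw [himg]; exact Subgroup.mul_mem _ hρ (Subgroup.inv_mem _ hg)
    · have h9 := cs.length_mul_mod_two (r * q) g⁻¹
      rw [cs.length_inv] at h9
      rw [Nat.odd_iff]
      omega
  rcases Nat.lt_or_gt_of_ne hne with h3 | h3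
  · -- length (ρ x) < length x
    obtain ⟨g, hg, hgl⟩ := ivt_down ({i, j} : Set B) hρ x (cs.length x - 1) (by omega) (by omega)
    obtain ⟨hg1, hg2⟩ := main g hg (by omega)
    refine ⟨g, r * q * g⁻¹, hg1, hg2, by group, ?_⟩
    have h4 : NN cs x g = 1 := (NN_one_iff hg1).mpr (by omega)
    have h5 : NN cs (r * q * x) (r * q * g⁻¹) = 0 := by
      rw [NN_zero_iff hg2]
      have h6 : r * q * g⁻¹ * (r * q * x) = g * x := by
        have h7 : (r * q * g⁻¹)⁻¹ = r * q * g⁻¹ := hg2.inv
        have h8 : r * q * g⁻¹ = g * (r * q)⁻¹ := by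
          rw [← h7]; group
        rw [h8]; group
      rw [h6]
      omega
    rw [h4, h5]
    decide
  · obtain ⟨g, hg, hgl⟩ := ivt_up ({i, j} : Set B) hρ x (cs.length x + 1) (by omega) (by omega)
    obtain ⟨hg1, hg2⟩ := main g hg (by omega)
    refine ⟨g, r * q * g⁻¹, hg1, hg2, by group, ?_⟩
    have h4 : NN cs x g = 0 := (NN_zero_iff hg1).mpr (by omega)
    have h5 : NN cs (r * q * x) (r * q * g⁻¹) = 1 := by
      rw [NN_one_iff hg2]
      have h6 : r * q * g⁻¹ * (r * q * x) = g * x := by
        have h7 : (r * q * g⁻¹)⁻¹ = r * q * g⁻¹ := hg2.inv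
        have h8 : r * q * g⁻¹ = g * (r * q)⁻¹ := by
          rw [← h7]; group
        rw [h8]; group
      rw [h6]
      omega
    rw [h4, h5]
    decide

/-- A twisted conjugacy class of twisted involutions with (QP1). -/
structure TwClass (cs : CoxeterSystem M W) (θ : MulAut W) (K : Set W) : Prop where
  autS : IsAutS cs θ
  sq : ∀ w, θ (θ w) = w
  invol : ∀ x ∈ K, x * θ x = 1
  conj : ∀ x ∈ K, ∀ u, u * x * θ u⁻¹ ∈ K
  qp1 : ∀ x ∈ K, ∀ r, cs.IsReflection r → cs.length (r * x * θ r) = cs.length x → r * x * θ r = x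

lemma conj_eq_iff_simple {s t : W} (hs : s * s = 1) : s * t * s = s ↔ t = s := by
  constructor
  · intro h
    calc t = (s * s) * t * (s * s) := by rw [hs, one_mul, mul_one]
      _ = s * (s * t * s) * s := by simp only [mul_assoc]
      _ = s := by rw [h, hs, one_mul]
  · intro h
    rw [h, hs, one_mul]

/-- invariance of inversions under the move -/
lemma NN_move {θ : MulAut W} (hθ : IsAutS cs θ) {x t : W} {i : B}
    (h1 : t ≠ cs.simple i) (h2 : t ≠ x * θ (cs.simple i) * x⁻¹) :
    NN cs (cs.simple i * x * θ (cs.simple i)) (cs.simple i * t * cs.simple i) = NN cs x t := by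
  obtain ⟨j, hj⟩ := hθ.simple i
  have hs : cs.simple i * cs.simple i = 1 := cs.simple_mul_simple_self i
  rw [hj] at h2 ⊢
  rw [mul_assoc, NN_mul, NN_mul]
  have h3 : cs.simple i * t * cs.simple i ≠ cs.simple i := by
    rw [Ne, conj_eq_iff_simple hs]; exact h1
  have h4 : (cs.simple i)⁻¹ * (cs.simple i * t * cs.simple i) * cs.simple i = t := by
    rw [cs.inv_simple]
    calc cs.simple i * (cs.simple i * t * cs.simple i) * cs.simple i
        = (cs.simple i * cs.simple i) * t * (cs.simple i * cs.simple i) := by simp only [mul_assoc]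
      _ = t := by rw [hs, one_mul, mul_one]
  have h5 : x⁻¹ * t * x ≠ cs.simple j := by
    intro h
    apply h2
    rw [← h]
    group
  rw [NN_simple_ne h3, h4, NN_simple_ne h5, zero_add, add_zero]

theorem finite_case {θ : MulAut W} {K : Set W} (hK : TwClass cs θ K) {r q : W}
    (hr : cs.IsReflection r) (hq : cs.IsReflection q) (hne : r ≠ q)
    (hfin : IsOfFinOrder (r * q)) : ∀ x ∈ K, x * θ r * x⁻¹ = q →
    ∃ t' t'', cs.IsReflection t' ∧ cs.IsReflection t'' ∧ t'' * t' = r * q ∧
      NN cs x t' ≠ NN cs (r * q * x) t'' := by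
  refine finite_induction (cs := cs) (fun r q => ∀ x ∈ K, x * θ r * x⁻¹ = q →
    ∃ t' t'', cs.IsReflection t' ∧ cs.IsReflection t'' ∧ t'' * t' = r * q ∧
      NN cs x t' ≠ NN cs (r * q * x) t'') ?_ ?_ hr hq hne hfin
  · -- move
    intro r q i hr hq hne hfin hnr ih x hx hxq
    have hs : cs.simple i * cs.simple i = 1 := cs.simple_mul_simple_self i
    have hss : ∀ g, cs.simple i * (cs.simple i * g) = g := fun g => by
      rw [← mul_assoc, hs, one_mul]
    have hθs : ∀ g, θ (cs.simple i) * (θ (cs.simple i) * g) = g := fun g => by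
      rw [← mul_assoc, ← map_mul, hs, map_one, one_mul]
    have hθx : θ x = x⁻¹ := by
      rw [eq_comm, inv_eq_iff_mul_eq_one]; exact hK.invol x hx
    set ρ := r * q with hρ
    have hρi : ρ⁻¹ = q * r := by rw [hρ, mul_inv_rev, hr.inv, hq.inv]
    have hx' : cs.simple i * x * θ (cs.simple i) ∈ K := by
      have := hK.conj x hx (cs.simple i)
      rwa [cs.inv_simple] at this
    have hconj : cs.simple i * x * θ (cs.simple i) * θ (cs.simple i * r * cs.simple i) *
        (cs.simple i * x * θ (cs.simple i))⁻¹ = cs.simple i * q * cs.simple i := by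
      rw [map_mul, map_mul, mul_inv_rev, mul_inv_rev, ← map_inv, cs.inv_simple, ← hxq]
      simp only [mul_assoc]
      rw [hθs, hθs]
    obtain ⟨t1, t2, ht1, ht2, ht, hN⟩ := ih _ hx' hconj
    have hρ' : cs.simple i * r * cs.simple i * (cs.simple i * q * cs.simple i) =
        cs.simple i * ρ * cs.simple i := by
      rw [hρ]; simp only [mul_assoc, hss]
    rw [hρ'] at ht hN
    have hst1 : cs.IsReflection (cs.simple i * t1 * cs.simple i) := conj_refl ht1 i
    have hst2 : cs.IsReflection (cs.simple i * t2 * cs.simple i) := conj_refl ht2 i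
    have hcρ : x * θ ρ * x⁻¹ = ρ⁻¹ := by
      have h1 : x * θ q * x⁻¹ = r := by
        rw [← hxq, map_mul, map_mul, map_inv, hθx, hK.sq]; group
      rw [hρi, hρ, map_mul]
      calc x * (θ r * θ q) * x⁻¹ = (x * θ r * x⁻¹) * (x * θ q * x⁻¹) := by group
        _ = q * r := by rw [h1, hxq]
    -- forbidden reflections
    have hbad1 : ∀ t, cs.IsReflection t → cs.IsReflection (ρ * t) → t ≠ cs.simple i := by
      intro t _ h2 h3
      rw [h3] at h2
      exact hnr h2
    have hbad2 : ∀ t, cs.IsReflection t → cs.IsReflection (ρ * t) →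
        t ≠ x * θ (cs.simple i) * x⁻¹ := by
      intro t _ h2 h3
      have h4 : cs.IsReflection (x * θ (ρ * t) * x⁻¹) := (hK.autS.refl h2).conj x
      have h5 : x * θ (ρ * t) * x⁻¹ = ρ⁻¹ * cs.simple i := by
        calc x * θ (ρ * t) * x⁻¹ = (x * θ ρ * x⁻¹) * (x * θ t * x⁻¹) := by rw [map_mul]; group
          _ = ρ⁻¹ * cs.simple i := by
              rw [hcρ, h3, map_mul, map_mul, map_inv, hθx, hK.sq]; group
      rw [h5] at h4
      have h6 : cs.IsReflection (cs.simple i * ρ) := by
        have h7 : cs.simple i * ρ = (ρ⁻¹ * cs.simple i)⁻¹ := by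
          rw [mul_inv_rev, inv_inv, cs.inv_simple]
        rw [h7, h4.inv]
        exact h4
      have h8 := h6.conj (cs.simple i)
      rw [← mul_assoc, hs, one_mul, cs.inv_simple] at h8
      exact hnr h8
    set t' := cs.simple i * t1 * cs.simple i with ht'
    set t'' := cs.simple i * t2 * cs.simple i with ht''
    have e1 : cs.simple i * t' * cs.simple i = t1 := by
      rw [ht']; simp only [mul_assoc, hss, hs, mul_one]
    have e2 : cs.simple i * t'' * cs.simple i = t2 := by
      rw [ht'']; simp only [mul_assoc, hss, hs, mul_one]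
    have e3 : t'' * t' = ρ := by
      calc t'' * t' = cs.simple i * (t2 * t1) * cs.simple i := by
            rw [ht', ht'']; simp only [mul_assoc, hss]
        _ = ρ := by rw [ht]; simp only [mul_assoc, hss, hs, mul_one]
    have e4 : ρ * t' = t'' := by
      rw [← e3, mul_assoc, hst1.mul_self, mul_one]
    have e5 : t' = t'' * ρ := by
      rw [← e3, ← mul_assoc, hst2.mul_self, one_mul]
    have hr4 : cs.IsReflection (ρ * t') := by rw [e4]; exact hst2
    have n1 := hbad1 t' hst1 hr4
    have n2 := hbad2 t' hst1 hr4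
    have n3 : t'' ≠ cs.simple i := by
      intro h3
      have h6 : cs.IsReflection (cs.simple i * ρ) := by rw [← h3, ← e5]; exact hst1
      have h8 := h6.conj (cs.simple i)
      rw [← mul_assoc, hs, one_mul, cs.inv_simple] at h8
      exact hnr h8
    have n4 : t'' ≠ (ρ * x) * θ (cs.simple i) * (ρ * x)⁻¹ := by
      intro h3
      apply hbad2 (x * θ (cs.simple i) * x⁻¹)
        ((hK.autS.refl (cs.isReflection_simple i)).conj x) ?_ rfl
      have h4 : ρ * (x * θ (cs.simple i) * x⁻¹) = t' := by
        rw [e5, h3]; group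
      rw [h4]
      exact hst1
    refine ⟨t', t'', hst1, hst2, e3, ?_⟩
    have f1 := NN_move (cs := cs) hK.autS n1 n2
    have f2 := NN_move (cs := cs) hK.autS n3 n4
    rw [e1] at f1
    rw [e2] at f2
    have e6 : cs.simple i * ρ * cs.simple i * (cs.simple i * x * θ (cs.simple i)) =
        cs.simple i * (ρ * x) * θ (cs.simple i) := by
      simp only [mul_assoc, hss]
    rw [e6, f1, f2] at hN
    exact hN
  · -- base
    intro r q i j hr hq hne h1 h2 x hx hxq
    apply base_case hr hq h1 h2
    intro h3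
    have h4 : r * q * x = r * x * θ r := by rw [← hxq]; group
    rw [h4] at h3
    have h5 := hK.qp1 x hx r hr h3
    rw [← h4] at h5
    have h6 : r * q = 1 := by
      apply mul_right_cancel (b := x)
      rw [h5, one_mul]
    apply hne
    rw [← hq.inv]
    exact eq_inv_of_mul_eq_one_left h6

/-- **Key theorem.** -/
theorem key {θ : MulAut W} {K : Set W} (hK : TwClass cs θ K) {x r : W} (hx : x ∈ K)
    (hr : cs.IsReflection r) (hne : r * x * θ r ≠ x) :
    ∃ t' t'', cs.IsReflection t' ∧ cs.IsReflection t'' ∧ r * x * θ r = t'' * (t' * x) ∧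
      ((cs.length x < cs.length (t' * x) ∧ cs.length (t' * x) < cs.length (r * x * θ r)) ∨
      (cs.length (r * x * θ r) < cs.length (t' * x) ∧ cs.length (t' * x) < cs.length x)) := by
  set q : W := x * θ r * x⁻¹ with hq
  have hqr : cs.IsReflection q := (hK.autS.refl hr).conj x
  have hy : r * x * θ r = r * q * x := by rw [hq]; group
  have hrq : r ≠ q := by
    intro h
    apply hne
    rw [hy, ← h, hr.mul_self, one_mul]
  have main : ∃ t' t'', cs.IsReflection t' ∧ cs.IsReflection t'' ∧ t'' * t' = r * q ∧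
      NN cs x t' ≠ NN cs (r * q * x) t'' := by
    by_cases hfin : IsOfFinOrder (r * q)
    · exact finite_case hK hr hqr hrq hfin x hx rfl
    · exact infinite_case hK.autS (hK.invol x hx) hr (hK.sq r) hfin
  obtain ⟨t', t'', ht', ht'', ht, hN⟩ := main
  refine ⟨t', t'', ht', ht'', by rw [hy, ← ht, mul_assoc], ?_⟩
  rw [hy]
  have hz : t'' * (r * q * x) = t' * x := by
    rw [← ht, ← mul_assoc, ← mul_assoc, ht''.mul_self, one_mul]
  rcases zmod2_cases (NN cs x t') with h1 | h1
  · left
    have h2 : NN cs (r * q * x) t'' = 1 := by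
      rcases zmod2_cases (NN cs (r * q * x) t'') with h3 | h3
      · exact absurd (h1.trans h3.symm) hN
      · exact h3
    rw [NN_zero_iff ht'] at h1
    rw [NN_one_iff ht'', hz] at h2
    exact ⟨h1, h2⟩
  · right
    have h2 : NN cs (r * q * x) t'' = 0 := by
      rcases zmod2_cases (NN cs (r * q * x) t'') with h3 | h3
      · exact h3
      · exact absurd (h1.trans h3.symm) hN
    rw [NN_one_iff ht'] at h1
    rw [NN_zero_iff ht'', hz] at h2
    exact ⟨h2, h1⟩

/-- cover exchange, left version -/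
lemma cover_left {x t : W} {i : B} (ht : cs.IsReflection t)
    (h1 : cs.length (t * x) = cs.length x + 1) (h2 : cs.length x < cs.length (cs.simple i * x))
    (h3 : cs.length (cs.simple i * (t * x)) < cs.length (t * x)) : t = cs.simple i := by
  by_contra hne
  have hs : cs.simple i * cs.simple i = 1 := cs.simple_mul_simple_self i
  have hst : cs.IsReflection (cs.simple i * t * cs.simple i) := conj_refl ht i
  have h4 : cs.simple i * t * cs.simple i ≠ cs.simple i := by
    rw [Ne, conj_eq_iff_simple hs]; exact hne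
  have h5 : (cs.simple i)⁻¹ * (cs.simple i * t * cs.simple i) * cs.simple i = t := by
    rw [cs.inv_simple]
    calc cs.simple i * (cs.simple i * t * cs.simple i) * cs.simple i
        = (cs.simple i * cs.simple i) * t * (cs.simple i * cs.simple i) := by simp only [mul_assoc]
      _ = t := by rw [hs, one_mul, mul_one]
  have h6 : NN cs x t = 0 := (NN_zero_iff ht).mpr (by omega)
  have h7 : NN cs (cs.simple i * x) (cs.simple i * t * cs.simple i) = 0 := by
    rw [NN_mul, NN_simple_ne h4, h5, h6, zero_add]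
  rw [NN_zero_iff hst] at h7
  have h8 : cs.simple i * t * cs.simple i * (cs.simple i * x) = cs.simple i * (t * x) := by
    calc cs.simple i * t * cs.simple i * (cs.simple i * x)
        = cs.simple i * t * (cs.simple i * cs.simple i) * x := by simp only [mul_assoc]
      _ = _ := by rw [hs, mul_one, mul_assoc]
  rw [h8] at h7
  omega

/-- cover exchange, right version -/
lemma cover_right {x t : W} {i : B} (ht : cs.IsReflection t)
    (h1 : cs.length (t * x) = cs.length x + 1) (h2 : cs.length x < cs.length (x * cs.simple i))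
    (h3 : cs.length (t * x * cs.simple i) < cs.length (t * x)) : t * x = x * cs.simple i := by
  by_contra hne
  have h4 : x⁻¹ * t * x ≠ cs.simple i := by
    intro h
    apply hne
    rw [← h]; group
  have h6 : NN cs x t = 0 := (NN_zero_iff ht).mpr (by omega)
  have h7 : NN cs (x * cs.simple i) t = 0 := by
    rw [NN_mul, NN_simple_ne h4, h6, zero_add]
  rw [NN_zero_iff ht, ← mul_assoc] at h7
  omega

/-- (QP1) implies (QP2). -/
theorem qp2 {θ : MulAut W} {K : Set W} (hK : TwClass cs θ K) {x r : W} (hx : x ∈ K)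
    (hr : cs.IsReflection r) (i : B) (h1 : cs.length x < cs.length (r * x * θ r))
    (h2 : cs.length (cs.simple i * (r * x * θ r) * θ (cs.simple i)) <
      cs.length (cs.simple i * x * θ (cs.simple i))) :
    r * x * θ r = cs.simple i * x * θ (cs.simple i) := by
  obtain ⟨j, hj⟩ := hK.autS.simple i
  obtain ⟨t', t'', ht', ht'', hy, hch⟩ := key hK hx hr (by intro h; rw [h] at h1; omega)
  set y := r * x * θ r with hydef
  have hch1 : cs.length x < cs.length (t' * x) ∧ cs.length (t' * x) < cs.length y := by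
    rcases hch with h | h
    · exact h
    · omega
  obtain ⟨c1, c2⟩ := hch1
  rw [hj] at h2 ⊢
  have a1 := cs.length_simple_mul x i
  have a2 := cs.length_mul_simple (cs.simple i * x) j
  have a3 := cs.length_simple_mul y i
  have a4 := cs.length_mul_simple (cs.simple i * y) j
  have a5 := cs.length_mul_simple x j
  have a6 := cs.length_simple_mul (x * cs.simple j) i
  have a7 := cs.length_mul_simple y j
  have a8 := cs.length_simple_mul (y * cs.simple j) i
  rw [← mul_assoc] at a6 a8
  have hpar : cs.length y % 2 = cs.length x % 2 := by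
    have b1 := cs.length_mul_mod_two t' x
    have b2 := cs.length_mul_mod_two t'' (t' * x)
    have b3 := ht'.odd_length
    have b4 := ht''.odd_length
    rw [Nat.odd_iff] at b3 b4
    rw [← hy] at b2
    omega
  -- lengths
  have l1 : cs.length y = cs.length x + 2 := by omega
  have l2 : cs.length (t' * x) = cs.length x + 1 := by omega
  have l3 : cs.length (cs.simple i * x * cs.simple j) = cs.length x + 2 := by omega
  have l4 : cs.length (cs.simple i * y * cs.simple j) = cs.length x := by omega
  have l5 : cs.length (cs.simple i * x) = cs.length x + 1 := by omega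
  have l6 : cs.length (x * cs.simple j) = cs.length x + 1 := by omega
  have l7 : cs.length (cs.simple i * y) + 1 = cs.length y := by omega
  have l8 : cs.length (y * cs.simple j) + 1 = cs.length y := by omega
  set z := t' * x with hz
  have a9 := cs.length_simple_mul z i
  have a10 := cs.length_mul_simple z j
  have left_alt : z = cs.simple i * x ∨ y = cs.simple i * z := by
    by_cases h : cs.length (cs.simple i * z) < cs.length z
    · left
      have := cover_left ht' l2 (by omega) h
      rw [hz, this]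
    · right
      have := cover_left (x := z) ht'' (by rw [← hy]; omega) (i := i) (by omega)
        (by rw [← hy]; omega)
      rw [hy, this]
  have right_alt : z = x * cs.simple j ∨ y = z * cs.simple j := by
    by_cases h : cs.length (z * cs.simple j) < cs.length z
    · left
      exact cover_right ht' l2 (by omega) h
    · right
      have := cover_right (x := z) ht'' (by rw [← hy]; omega) (i := j) (by omega)
        (by rw [← hy]; omega)
      rw [hy, this]
  rcases left_alt with hl | hl <;> rcases right_alt with hr' | hr'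
  · exfalso
    have h3 : cs.simple i * x * cs.simple j = x := by
      rw [← hl, hr', mul_assoc, cs.simple_mul_simple_self, mul_one]
    rw [h3] at l3
    omega
  · rw [hr', hl]
  · rw [hl, hr', mul_assoc]
  · exfalso
    have h3 : cs.simple i * y * cs.simple j = y := by
      have h4 : cs.simple i * y = z := by
        rw [hl, ← mul_assoc, cs.simple_mul_simple_self, one_mul]
      rw [h4]
      exact hr'.symm
    rw [h3] at l4
    omega

end Pool.Agent.R676.Cox
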