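import Pool.Agent.R676.Cox.Root

/-!
Two reflections whose product has finite order can be moved into a standard rank two subgroup by
conjugating with simple reflections none of which belongs to the plane of the two reflections.
-/

set_option autoImplicit false

namespace Pool.Agent.R676.Cox

open CoxeterSystem

variable {B : Type*} {M : CoxeterMatrix B} {W : Type*} [Group W] {cs : CoxeterSystem M W}

/-- Positive weights that do not kill finitely many given nonzero vectors. -/
lemma exists_weights (F : Finset (B →₀ ℝ)) (hF : ∀ v ∈ F, v ≠ 0) :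
    ∃ lam : (B →₀ ℝ) →ₗ[ℝ] ℝ, (∀ i, 0 < lam (ee i)) ∧ ∀ v ∈ F, lam v ≠ 0 := by
  classical
  induction F using Finset.induction_on with
  | empty =>
    refine ⟨Finsupp.linearCombination ℝ (fun _ => (1 : ℝ)), ?_, by simp⟩
    intro i
    simp [ee]
  | insert v F hv ih =>
    obtain ⟨lam, h1, h2⟩ := ih (fun u hu => hF u (Finset.mem_insert_of_mem hu))
    obtain ⟨i, hi⟩ := Finsupp.ne_iff.mp (hF v (Finset.mem_insert_self _ _))
    rw [Finsupp.zero_apply] at hi
    obtain ⟨e, he0, he⟩ := (Set.Ioi_infinite (0 : ℝ)).exists_notMem_finset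
      ((insert v F).image (fun u => - lam u / u i))
    have he0' : 0 < e := he0
    refine ⟨lam + e • Finsupp.lapply i, ?_, ?_⟩
    · intro j
      have h3 : (0 : ℝ) ≤ (ee j : B →₀ ℝ) i := ee_nonneg j i
      have h4 := h1 j
      simp only [LinearMap.add_apply, LinearMap.smul_apply, Finsupp.lapply_apply, smul_eq_mul]
      have := mul_nonneg he0'.le h3
      linarith
    · intro u hu h0
      simp only [LinearMap.add_apply, LinearMap.smul_apply, Finsupp.lapply_apply, smul_eq_mul] at h0
      by_cases hui : u i = 0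
      · rw [hui, mul_zero, add_zero] at h0
        rcases Finset.mem_insert.mp hu with h5 | h5
        · rw [h5] at hui
          exact hi hui
        · exact h2 u h5 h0
      · apply he
        rw [Finset.mem_image]
        refine ⟨u, hu, ?_⟩
        field_simp
        linarith

lemma lam_nonneg {lam : (B →₀ ℝ) →ₗ[ℝ] ℝ} (h : ∀ i, 0 ≤ lam (ee i)) {v : B →₀ ℝ} (hv : 0 ≤ v) :
    0 ≤ lam v := by
  have h1 : v = ∑ i ∈ v.support, v i • (ee i : B →₀ ℝ) := by
    conv_lhs => rw [← Finsupp.sum_single v]
    rw [Finsupp.sum]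
    apply Finset.sum_congr rfl
    intro i _
    simp [ee]
  rw [h1, map_sum]
  apply Finset.sum_nonneg
  intro i _
  rw [map_smul, smul_eq_mul]
  exact mul_nonneg (hv i) (h i)

lemma lam_support {lam : (B →₀ ℝ) →ₗ[ℝ] ℝ} (h : ∀ i, 0 ≤ lam (ee i)) {v : B →₀ ℝ} (hv : 0 ≤ v)
    (h0 : lam v = 0) {i : B} (hi : v i ≠ 0) : lam (ee i) = 0 := by
  have h1 : v = ∑ i ∈ v.support, v i • (ee i : B →₀ ℝ) := by
    conv_lhs => rw [← Finsupp.sum_single v]
    rw [Finsupp.sum]
    apply Finset.sum_congr rfl
    intro i _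
    simp [ee]
  rw [h1, map_sum] at h0
  rw [Finset.sum_eq_zero_iff_of_nonneg] at h0
  · have h2 := h0 i (Finsupp.mem_support_iff.mpr hi)
    rw [map_smul, smul_eq_mul] at h2
    exact (mul_eq_zero.mp h2).resolve_left hi
  · intro i _
    rw [map_smul, smul_eq_mul]
    exact mul_nonneg (hv i) (h i)

lemma lam_pos {lam : (B →₀ ℝ) →ₗ[ℝ] ℝ} (h : ∀ i, 0 < lam (ee i)) {v : B →₀ ℝ} (hv : 0 ≤ v)
    (hne : v ≠ 0) : 0 < lam v := by
  obtain ⟨i, hi⟩ := Finsupp.ne_iff.mp hne
  rw [Finsupp.zero_apply] at hi
  refine lt_of_le_of_ne (lam_nonneg (fun i => (h i).le) hv) ?_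
  intro h0
  have := lam_support (fun i => (h i).le) hv h0.symm hi
  exact (h i).ne' this

/-- A reflection whose root is supported on `J` lies in the subgroup generated by `J`. -/
lemma mem_closure_of_support (J : Set B) : ∀ (n : ℕ) (t : W), cs.IsReflection t → cs.length t = n →
    (∀ k, k ∉ J → rt cs t k = 0) → t ∈ Subgroup.closure (cs.simple '' J) := by
  intro n
  induction n using Nat.strong_induction_on with
  | _ n ih =>
  intro t ht hn hJ
  set a := rt cs t with ha
  have ha0 : 0 ≤ a := rt_pos ht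
  obtain ⟨k, hk1, hk2⟩ : ∃ k, a k ≠ 0 ∧ 0 < bil M (ee k) a := by
    by_contra hcon
    push Not at hcon
    have h2 := bil_rt_self ht
    rw [← ha] at h2
    have h3 : bil M a a = ∑ k ∈ a.support, a k * coroot M k a := by
      rw [bil, Finsupp.linearCombination_apply, Finsupp.sum, LinearMap.sum_apply]
      apply Finset.sum_congr rfl
      intro k _
      rw [LinearMap.smul_apply, smul_eq_mul]
    have h4 : ∑ k ∈ a.support, a k * coroot M k a ≤ 0 := by
      apply Finset.sum_nonpos
      intro k hk
      have h5 := hcon k (Finsupp.mem_support_iff.mp hk)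
      rw [bil_ee_left] at h5
      exact mul_nonpos_of_nonneg_of_nonpos (ha0 k) h5
    linarith
  have hkJ : k ∈ J := by
    by_contra h
    exact hk1 (hJ k h)
  set s := cs.simple k with hs
  have hsr : cs.IsReflection s := cs.isReflection_simple k
  have hsc : s ∈ Subgroup.closure (cs.simple '' J) := Subgroup.subset_closure ⟨k, hkJ, rfl⟩
  by_cases hts : t = s
  · rw [hts]
    exact hsc
  obtain ⟨l, hlk, hl⟩ : ∃ l, l ≠ k ∧ a l ≠ 0 := by
    by_contra hcon
    push Not at hcon
    apply hts
    apply rt_inj ht hsr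
    rw [hs, rt_simple]
    apply (rt_PR ht).eq_of_smul (PR_ee cs k) (a := a k)
    rw [← ha]
    ext j
    by_cases hj : j = k
    · subst hj
      simp [ee]
    · rw [hcon j hj]
      simp [ee, hj]
  have hl0 : 0 < a l := lt_of_le_of_ne (ha0 l) (Ne.symm hl)
  have hekl : (ee k : B →₀ ℝ) l = 0 := by simp [ee, hlk]
  have hsym : bil M a (ee k) = bil M (ee k) a := bil_symm _ _
  -- first drop
  have hrt1 : IsRt cs (geo cs t (ee k)) := (isRt_ee cs k).geo t
  have hneg1 : geo cs t (ee k) ≤ 0 := by
    rcases hrt1.cases with h1 | h1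
    · exfalso
      have h2 := h1 l
      rw [geo_refl ht, ← ha, Finsupp.sub_apply, Finsupp.smul_apply, hekl, hsym, smul_eq_mul] at h2
      have := mul_pos hk2 hl0
      rw [Finsupp.zero_apply] at h2
      linarith
    · exact h1
  have hlen1 : cs.length (t * s) < cs.length t := by
    rw [length_gt_iff hsr, hs, rt_simple]
    exact hneg1
  have hrt2 : IsRt cs (geo cs (s * t) (ee k)) := (isRt_ee cs k).geo _
  have hneg2 : geo cs (s * t) (ee k) ≤ 0 := by
    rcases hrt2.cases with h1 | h1
    · exfalso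
      have h2 := h1 l
      rw [← geo_geo, geo_refl ht, ← ha, hs, geo_simple, map_sub, map_smul, sg_ee_self, sg_apply,
        ← bil_ee_left, hsym, Finsupp.sub_apply, Finsupp.smul_apply, Finsupp.sub_apply,
        Finsupp.neg_apply, Finsupp.smul_apply, hekl] at h2
      have := mul_pos hk2 hl0
      simp only [Finsupp.zero_apply, smul_eq_mul, mul_zero, sub_zero, neg_zero, zero_sub] at h2
      linarith
    · exact h1
  have hlen2 : cs.length (s * t * s) < cs.length (s * t) := by
    rw [length_gt_iff hsr, hs, rt_simple]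
    exact hneg2
  have hlen3 : cs.length (s * t) = cs.length (t * s) := by
    rw [← cs.length_inv, mul_inv_rev, hsr.inv, ht.inv]
  have hsinv : s⁻¹ = s := hsr.inv
  have hpos : 0 ≤ geo cs s (rt cs t) := by
    by_contra hcon
    apply hts
    apply rt_inj ht hsr
    rw [hs, rt_simple]
    exact (rt_PR ht).eq_ee ((((rt_isRt ht).geo s).not_nonneg).mp hcon)
  have hrt' : rt cs (s * t * s⁻¹) = geo cs s a := rt_conj_pos ht s hpos
  have hmem := ih (cs.length (s * t * s⁻¹)) (by rw [hsinv]; omega) (s * t * s⁻¹) (ht.conj s) rfl (by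
    intro j hj
    rw [hrt', hs, geo_simple, sg_apply, Finsupp.sub_apply, Finsupp.smul_apply, hJ j hj]
    have : (ee k : B →₀ ℝ) j = 0 := by
      have : j ≠ k := by
        rintro rfl
        exact hj hkJ
      simp [ee, this]
    rw [this]
    simp)
  have h9 : t = s⁻¹ * (s * t * s⁻¹) * s := by group
  rw [h9]
  exact mul_mem (mul_mem (inv_mem hsc) hmem) hsc

/-- The data carried along the descent. -/
structure Ctx (cs : CoxeterSystem M W) (r q : W) (p : (B →₀ ℝ) →ₗ[ℝ] ℝ) : Prop where
  hr : cs.IsReflection r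
  hq : cs.IsReflection q
  ne : r ≠ q
  fin : IsOfFinOrder (r * q)
  pr : ∀ v, p (geo cs r v) = p v
  pq : ∀ v, p (geo cs q v) = p v
  span : ∀ t, cs.IsReflection t → p (rt cs t) = 0 →
    rt cs t ∈ Submodule.span ℝ ({rt cs r, rt cs q} : Set (B →₀ ℝ))
  negfin : {t : W | cs.IsReflection t ∧ p (rt cs t) < 0}.Finite

lemma Ctx.pr0 {r q : W} {p : (B →₀ ℝ) →ₗ[ℝ] ℝ} (h : Ctx cs r q p) : p (rt cs r) = 0 := by
  have := h.pr (rt cs r)
  rw [geo_rt_self h.hr, map_neg] at this
  linarith

lemma Ctx.pq0 {r q : W} {p : (B →₀ ℝ) →ₗ[ℝ] ℝ} (h : Ctx cs r q p) : p (rt cs q) = 0 := by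
  have := h.pq (rt cs q)
  rw [geo_rt_self h.hq, map_neg] at this
  linarith

/-- A simple reflection with `p < 0` is not in the plane. -/
lemma Ctx.not_refl {r q : W} {p : (B →₀ ℝ) →ₗ[ℝ] ℝ} (h : Ctx cs r q p) {i : B}
    (hi : p (ee i) < 0) : ¬ cs.IsReflection (r * q * cs.simple i) := by
  intro ht
  set s := cs.simple i with hs
  have hsr : cs.IsReflection s := cs.isReflection_simple i
  set t := r * q * s with htdef
  have hρ : t * s = r * q := by
    rw [htdef, mul_assoc, hsr.mul_self, mul_one]
  set c : B →₀ ℝ := ee i with hc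
  set c' := rt cs t with hc'
  have hsv : ∀ v, geo cs s v = v - bil M c v • c := by
    intro v
    rw [hs, geo_simple, sg_apply, ← bil_ee_left]
  have htv : ∀ v, geo cs t v = v - bil M c' v • c' := fun v => geo_refl ht v
  have hcc : bil M c c = 2 := (PR_ee cs i).root.bil_self
  have hcc' : bil M c' c' = 2 := bil_rt_self ht
  set x := bil M c c' with hx
  have hx' : bil M c' c = x := bil_symm _ _
  have key : ∀ v, bil M c v * p c + bil M c' (geo cs s v) * p c' = 0 := by
    intro v
    have h1 : p (geo cs (t * s) v) = p v := by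
      rw [hρ, ← geo_geo, h.pr, h.pq]
    rw [← geo_geo, htv, map_sub, map_smul, smul_eq_mul] at h1
    have h2 : p (geo cs s v) = p v - bil M c v * p c := by
      rw [hsv, map_sub, map_smul, smul_eq_mul]
    rw [h2] at h1
    linarith
  have k1 := key c
  rw [hcc, hsv c, hcc, bil_sub_right, bil_smul_right, hx'] at k1
  have k2 := key (geo cs s c')
  have hss : geo cs s (geo cs s c') = c' := by
    rw [geo_geo, hsr.mul_self, map_one, Module.End.one_apply]
  rw [hss, hcc', hsv c', bil_sub_right, bil_smul_right, hcc, ← hx] at k2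
  have hpc : p c < 0 := hi
  have hx4 : x * x = 4 := by
    have h3 : 2 * p c = x * p c' := by linarith
    have h4 : 2 * p c' = x * p c := by linarith
    have h5 : (x * x - 4) * p c = 0 := by linear_combination (-2) * h3 + (-x) * h4
    have := (mul_eq_zero.mp h5).resolve_right hpc.ne
    linarith
  -- unipotent
  set σ := x / 2 with hσ
  have hσσ : σ * σ = 1 := by rw [hσ]; nlinarith
  have hxσ : x = 2 * σ := by rw [hσ]; ring
  set e := c - σ • c' with he
  have g1 : geo cs (t * s) c = c - (2 : ℝ) • e := by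
    rw [← geo_geo, hsv, hcc, htv, bil_sub_right, bil_smul_right, hx', he, hxσ]
    module
  have b1 : bil M c e = 0 := by
    rw [he, bil_sub_right, bil_smul_right, hcc, ← hx, hxσ]
    nlinarith
  have b2 : bil M c' e = 0 := by
    rw [he, bil_sub_right, bil_smul_right, hcc', hx', hxσ]
    ring
  have g2 : geo cs (t * s) e = e := by
    rw [← geo_geo, hsv, b1, zero_smul, sub_zero, htv, b2, zero_smul, sub_zero]
  have g3 : ∀ k : ℕ, geo cs ((t * s) ^ k) c = c - (2 * k : ℝ) • e := by
    intro k
    induction k with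
    | zero => simp
    | succ k ih =>
      rw [pow_succ', ← geo_geo, ih, map_sub, map_smul, g1, g2]
      push_cast
      module
  have hfin := h.fin
  rw [← hρ, isOfFinOrder_iff_pow_eq_one] at hfin
  obtain ⟨n, hn0, hn⟩ := hfin
  have h6 := g3 n
  rw [hn, map_one, Module.End.one_apply] at h6
  have h7 : (2 * n : ℝ) • e = 0 := by
    have := sub_eq_self.mp h6.symm
    exact this
  have h8 : e = 0 := by
    rcases smul_eq_zero.mp h7 with h9 | h9
    · exfalso
      have : (0 : ℝ) < 2 * n := by positivity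
      linarith
    · exact h9
  have h9 : c = σ • c' := by
    rw [he] at h8
    exact sub_eq_zero.mp h8
  have h10 := (PR_ee cs i).eq_of_smul (rt_PR ht) h9
  have h11 : s = t := by
    apply rt_inj hsr ht
    rw [hs, rt_simple, h10]
  apply h.ne
  have h12 : r * q = 1 := by rw [← hρ, ← h11, hsr.mul_self]
  have h13 : r = q⁻¹ := eq_inv_of_mul_eq_one_left h12
  rw [h13, h.hq.inv]

lemma rt_conj_simple {t : W} (ht : cs.IsReflection t) {i : B} (hne : t ≠ cs.simple i) :
    rt cs (cs.simple i * t * cs.simple i) = geo cs (cs.simple i) (rt cs t) := by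
  have hsr := cs.isReflection_simple i
  have hpos : 0 ≤ geo cs (cs.simple i) (rt cs t) := by
    by_contra hcon
    apply hne
    apply rt_inj ht hsr
    rw [rt_simple]
    exact (rt_PR ht).eq_ee ((((rt_isRt ht).geo _).not_nonneg).mp hcon)
  have := rt_conj_pos ht (cs.simple i) hpos
  rwa [hsr.inv] at this

lemma conj_refl {t : W} (ht : cs.IsReflection t) (i : B) :
    cs.IsReflection (cs.simple i * t * cs.simple i) := by
  have := ht.conj (cs.simple i)
  rwa [(cs.isReflection_simple i).inv] at this

lemma conj_conj_simple (t : W) (i : B) :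
    cs.simple i * (cs.simple i * t * cs.simple i) * cs.simple i = t := by
  have h := (cs.isReflection_simple i).mul_self
  calc cs.simple i * (cs.simple i * t * cs.simple i) * cs.simple i
      = (cs.simple i * cs.simple i) * t * (cs.simple i * cs.simple i) := by
        simp only [mul_assoc]
    _ = t := by rw [h, one_mul, mul_one]

/-- The negative set of the moved data. -/
lemma negset_move (p : (B →₀ ℝ) →ₗ[ℝ] ℝ) {i : B} (hi : p (ee i) < 0) :
    {t : W | cs.IsReflection t ∧ (p ∘ₗ geo cs (cs.simple i)) (rt cs t) < 0} =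
      (fun t => cs.simple i * t * cs.simple i) ''
        ({t : W | cs.IsReflection t ∧ p (rt cs t) < 0} \ {cs.simple i}) := by
  have hsr := cs.isReflection_simple i
  ext t
  constructor
  · rintro ⟨ht, hp⟩
    have hts : t ≠ cs.simple i := by
      rintro rfl
      rw [LinearMap.comp_apply, geo_rt_self hsr, map_neg, rt_simple] at hp
      linarith
    refine ⟨cs.simple i * t * cs.simple i, ⟨⟨conj_refl ht i, ?_⟩, ?_⟩, conj_conj_simple t i⟩
    · rw [rt_conj_simple ht hts]
      exact hp
    · intro h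
      apply hts
      have h2 : cs.simple i * t * cs.simple i = cs.simple i := h
      rw [← conj_conj_simple (cs := cs) t i, h2, hsr.mul_self, one_mul]
  · rintro ⟨u, ⟨⟨hu, hp⟩, hne⟩, rfl⟩
    refine ⟨conj_refl hu i, ?_⟩
    rw [LinearMap.comp_apply]
    simp only
    rw [rt_conj_simple hu hne, geo_geo, hsr.mul_self, map_one, Module.End.one_apply]
    exact hp

lemma Ctx.move {r q : W} {p : (B →₀ ℝ) →ₗ[ℝ] ℝ} (h : Ctx cs r q p) {i : B} (hi : p (ee i) < 0) :
    Ctx cs (cs.simple i * r * cs.simple i) (cs.simple i * q * cs.simple i)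
      (p ∘ₗ geo cs (cs.simple i)) := by
  have hsr := cs.isReflection_simple i
  have hrs : r ≠ cs.simple i := by
    rintro hh
    have := h.pr0
    rw [hh, rt_simple] at this
    linarith
  have hqs : q ≠ cs.simple i := by
    rintro hh
    have := h.pq0
    rw [hh, rt_simple] at this
    linarith
  refine ⟨conj_refl h.hr i, conj_refl h.hq i, ?_, ?_, ?_, ?_, ?_, ?_⟩
  · intro hh
    apply h.ne
    rw [← conj_conj_simple (cs := cs) r i, hh, conj_conj_simple]
  · have h1 : cs.simple i * r * cs.simple i * (cs.simple i * q * cs.simple i) =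
        cs.simple i * (r * q) * (cs.simple i)⁻¹ := by
      rw [hsr.inv]
      calc cs.simple i * r * cs.simple i * (cs.simple i * q * cs.simple i)
          = cs.simple i * r * (cs.simple i * cs.simple i) * q * cs.simple i := by
            simp only [mul_assoc]
        _ = _ := by rw [hsr.mul_self, mul_one]; simp only [mul_assoc]
    rw [h1]
    have h2 := h.fin
    rw [isOfFinOrder_iff_pow_eq_one] at h2 ⊢
    obtain ⟨n, hn0, hn⟩ := h2
    exact ⟨n, hn0, by rw [conj_pow, hn, mul_one, mul_inv_cancel]⟩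
  · intro v
    rw [LinearMap.comp_apply, LinearMap.comp_apply, geo_geo]
    have h1 : cs.simple i * (cs.simple i * r * cs.simple i) = r * cs.simple i := by
      rw [← mul_assoc, ← mul_assoc, hsr.mul_self, one_mul]
    rw [h1, ← geo_geo, h.pr]
  · intro v
    rw [LinearMap.comp_apply, LinearMap.comp_apply, geo_geo]
    have h1 : cs.simple i * (cs.simple i * q * cs.simple i) = q * cs.simple i := by
      rw [← mul_assoc, ← mul_assoc, hsr.mul_self, one_mul]
    rw [h1, ← geo_geo, h.pq]
  · intro t ht hp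
    have hts : t ≠ cs.simple i := by
      rintro rfl
      rw [LinearMap.comp_apply, geo_rt_self hsr, map_neg, rt_simple] at hp
      linarith
    have h1 := h.span (cs.simple i * t * cs.simple i) (conj_refl ht i) (by
      rw [rt_conj_simple ht hts]
      exact hp)
    rw [rt_conj_simple ht hts] at h1
    have h2 : geo cs (cs.simple i) (geo cs (cs.simple i) (rt cs t)) = rt cs t := by
      rw [geo_geo, hsr.mul_self, map_one, Module.End.one_apply]
    rw [← h2, rt_conj_simple h.hr hrs, rt_conj_simple h.hq hqs]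
    obtain ⟨x, y, hxy⟩ := Submodule.mem_span_pair.mp h1
    rw [← hxy, map_add, map_smul, map_smul]
    exact Submodule.mem_span_pair.mpr ⟨x, y, rfl⟩
  · rw [negset_move p hi]
    exact (h.negfin.subset Set.sdiff_subset).image _

lemma Ctx.card_move {r q : W} {p : (B →₀ ℝ) →ₗ[ℝ] ℝ} (h : Ctx cs r q p) {i : B}
    (hi : p (ee i) < 0) :
    {t : W | cs.IsReflection t ∧ (p ∘ₗ geo cs (cs.simple i)) (rt cs t) < 0}.ncard <
      {t : W | cs.IsReflection t ∧ p (rt cs t) < 0}.ncard := by
  rw [negset_move p hi]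
  refine lt_of_le_of_lt (Set.ncard_image_le (h.negfin.subset Set.sdiff_subset)) ?_
  apply Set.ncard_lt_ncard _ h.negfin
  refine ⟨Set.sdiff_subset, ?_⟩
  intro hsub
  have h1 : cs.simple i ∈ {t : W | cs.IsReflection t ∧ p (rt cs t) < 0} :=
    ⟨cs.isReflection_simple i, by rw [rt_simple]; exact hi⟩
  exact (hsub h1).2 rfl

lemma Ctx.base {r q : W} {p : (B →₀ ℝ) →ₗ[ℝ] ℝ} (h : Ctx cs r q p) (hp : ∀ i, 0 ≤ p (ee i)) :
    ∃ i j : B, r ∈ Subgroup.closure ({cs.simple i, cs.simple j} : Set W) ∧
      q ∈ Subgroup.closure ({cs.simple i, cs.simple j} : Set W) := by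
  classical
  set a := rt cs r with ha
  set b := rt cs q with hb
  set J : Finset B := a.support ∪ b.support with hJ
  have hJspan : ∀ i ∈ J, (ee i : B →₀ ℝ) ∈ Submodule.span ℝ ({a, b} : Set (B →₀ ℝ)) := by
    intro i hi
    have h1 : p (ee i) = 0 := by
      rcases Finset.mem_union.mp hi with h2 | h2
      · exact lam_support hp (rt_pos h.hr) h.pr0 (Finsupp.mem_support_iff.mp h2)
      · exact lam_support hp (rt_pos h.hq) h.pq0 (Finsupp.mem_support_iff.mp h2)
    have h2 := h.span (cs.simple i) (cs.isReflection_simple i) (by rw [rt_simple]; exact h1)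
    rwa [rt_simple] at h2
  have hcard : J.card ≤ 2 := by
    have h1 : LinearIndependent ℝ (fun i : J => (ee (i : B) : B →₀ ℝ)) :=
      (Finsupp.linearIndependent_single_one ℝ B).comp _ Subtype.val_injective
    have h2 := linearIndependent_le_span' _ h1 ({a, b} : Set (B →₀ ℝ)) (by
      rintro _ ⟨i, rfl⟩
      exact hJspan i i.2)
    rw [Cardinal.mk_fintype, Fintype.card_coe] at h2
    have h3 : J.card ≤ Fintype.card ({a, b} : Set (B →₀ ℝ)) := by exact_mod_cast h2
    refine h3.trans ?_
    rw [← Set.toFinset_card]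
    have h4 : ({a, b} : Set (B →₀ ℝ)).toFinset = {a, b} := by simp
    rw [h4]
    exact Finset.card_le_two
  have hne : J.Nonempty := by
    obtain ⟨i, hi⟩ := Finsupp.ne_iff.mp (rt_isRt h.hr).ne_zero
    exact ⟨i, Finset.mem_union_left _ (Finsupp.mem_support_iff.mpr hi)⟩
  obtain ⟨i, j, hij⟩ : ∃ i j : B, J ⊆ {i, j} := by
    obtain ⟨i, hi⟩ := hne
    by_cases hj : ∃ j ∈ J, j ≠ i
    · obtain ⟨j, hj, hji⟩ := hj
      refine ⟨i, j, ?_⟩
      have h1 : ({i, j} : Finset B) ⊆ J := by
        intro k hk
        rcases Finset.mem_insert.mp hk with h2 | h2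
        · rw [h2]; exact hi
        · rw [Finset.mem_singleton.mp h2]; exact hj
      rw [Finset.eq_of_subset_of_card_le h1 (by rw [Finset.card_pair hji.symm]; exact hcard)]
    · push Not at hj
      refine ⟨i, i, ?_⟩
      intro k hk
      rw [hj k hk]
      simp
  have hsub : cs.simple '' (J : Set B) ⊆ ({cs.simple i, cs.simple j} : Set W) := by
    rintro _ ⟨k, hk, rfl⟩
    have := hij hk
    rcases Finset.mem_insert.mp this with h2 | h2
    · rw [h2]; exact Set.mem_insert _ _
    · rw [Finset.mem_singleton.mp h2]; exact Set.mem_insert_of_mem _ rfl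
  refine ⟨i, j, Subgroup.closure_mono hsub ?_, Subgroup.closure_mono hsub ?_⟩
  · apply mem_closure_of_support (J : Set B) _ r h.hr rfl
    intro k hk
    by_contra h0
    exact hk (Finset.mem_union_left _ (Finsupp.mem_support_iff.mpr h0))
  · apply mem_closure_of_support (J : Set B) _ q h.hq rfl
    intro k hk
    by_contra h0
    exact hk (Finset.mem_union_right _ (Finsupp.mem_support_iff.mpr h0))

/-- Averaging over the dihedral group. -/
noncomputable def avg (cs : CoxeterSystem M W) (r q : W) : (B →₀ ℝ) →ₗ[ℝ] (B →₀ ℝ) :=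
  ∑ k ∈ Finset.range (orderOf (r * q)), (geo cs ((r * q) ^ k) + geo cs ((r * q) ^ k * r))

lemma avg_apply (r q : W) (v : B →₀ ℝ) : avg cs r q v =
    ∑ k ∈ Finset.range (orderOf (r * q)), (geo cs ((r * q) ^ k) v + geo cs ((r * q) ^ k * r) v) := by
  rw [avg, LinearMap.sum_apply]
  rfl

lemma avg_r {r q : W} (hr : cs.IsReflection r) (v : B →₀ ℝ) :
    avg cs r q (geo cs r v) = avg cs r q v := by
  rw [avg_apply, avg_apply]
  apply Finset.sum_congr rfl
  intro k _
  rw [geo_geo, geo_geo, mul_assoc ((r * q) ^ k) r r, hr.mul_self, mul_one, add_comm]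

lemma sum_range_cyc {V : Type*} [AddCommGroup V] (f : ℕ → V) (n : ℕ) (h : f n = f 0) :
    ∑ k ∈ Finset.range n, f (k + 1) = ∑ k ∈ Finset.range n, f k := by
  have h1 := Finset.sum_range_succ f n
  have h2 := Finset.sum_range_succ' f n
  rw [h1, h] at h2
  exact (add_right_cancel h2).symm

lemma avg_rho {r q : W} (hr : cs.IsReflection r) (hq : cs.IsReflection q) (v : B →₀ ℝ) :
    avg cs r q (geo cs (r * q) v) = avg cs r q v := by
  rw [avg_apply, avg_apply, Finset.sum_add_distrib, Finset.sum_add_distrib]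
  congr 1
  · have h1 := sum_range_cyc (fun k => geo cs ((r * q) ^ k) v) (orderOf (r * q)) (by
      simp [pow_orderOf_eq_one])
    rw [← h1]
    apply Finset.sum_congr rfl
    intro k _
    rw [geo_geo, ← pow_succ]
  · have h1 := sum_range_cyc (fun k => geo cs ((r * q) ^ k * r * (r * q)) v) (orderOf (r * q)) (by
      simp [pow_orderOf_eq_one])
    have h2 : ∀ k, geo cs ((r * q) ^ (k + 1) * r * (r * q)) v = geo cs ((r * q) ^ k * r) v := by
      intro k
      congr 2
      rw [pow_succ]
      calc (r * q) ^ k * (r * q) * r * (r * q) = (r * q) ^ k * (r * q) * (r * r) * q := by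
            simp only [mul_assoc]
        _ = (r * q) ^ k * r * (q * q) := by rw [hr.mul_self, mul_one]; simp only [mul_assoc]
        _ = (r * q) ^ k * r := by rw [hq.mul_self, mul_one]
    calc ∑ k ∈ Finset.range (orderOf (r * q)), geo cs ((r * q) ^ k * r) (geo cs (r * q) v)
        = ∑ k ∈ Finset.range (orderOf (r * q)), geo cs ((r * q) ^ k * r * (r * q)) v := by
          apply Finset.sum_congr rfl
          intro k _
          rw [geo_geo]
      _ = ∑ k ∈ Finset.range (orderOf (r * q)), geo cs ((r * q) ^ (k + 1) * r * (r * q)) v := h1.symm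
      _ = _ := Finset.sum_congr rfl (fun k _ => h2 k)

lemma avg_q {r q : W} (hr : cs.IsReflection r) (hq : cs.IsReflection q) (v : B →₀ ℝ) :
    avg cs r q (geo cs q v) = avg cs r q v := by
  have h2 : geo cs q v = geo cs r (geo cs (r * q) v) := by
    rw [geo_geo, ← mul_assoc, hr.mul_self, one_mul]
  rw [h2, avg_r hr, avg_rho hr hq]

lemma exists_ctx {r q : W} (hr : cs.IsReflection r) (hq : cs.IsReflection q) (hne : r ≠ q)
    (hfin : IsOfFinOrder (r * q)) : ∃ p, Ctx cs r q p := by
  classical
  set a := rt cs r with ha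
  set b := rt cs q with hb
  set P : Submodule ℝ (B →₀ ℝ) := Submodule.span ℝ ({a, b} : Set (B →₀ ℝ)) with hP
  have haP : a ∈ P := Submodule.subset_span (by simp)
  have hbP : b ∈ P := Submodule.subset_span (by simp)
  set m := orderOf (r * q) with hm
  have hm0 : 0 < m := hfin.orderOf_pos
  have dr : ∀ v, geo cs r v - v ∈ P := by
    intro v
    rw [geo_refl hr, sub_sub_cancel_left]
    exact P.neg_mem (P.smul_mem _ haP)
  have dq : ∀ v, geo cs q v - v ∈ P := by
    intro v
    rw [geo_refl hq, sub_sub_cancel_left]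
    exact P.neg_mem (P.smul_mem _ hbP)
  have dmul : ∀ d e : W, (∀ v, geo cs d v - v ∈ P) → (∀ v, geo cs e v - v ∈ P) →
      ∀ v, geo cs (d * e) v - v ∈ P := by
    intro d e h1 h2 v
    have h3 : geo cs (d * e) v - v = (geo cs d (geo cs e v) - geo cs e v) + (geo cs e v - v) := by
      rw [geo_geo]; abel
    rw [h3]
    exact P.add_mem (h1 _) (h2 _)
  have dpow : ∀ k : ℕ, ∀ v, geo cs ((r * q) ^ k) v - v ∈ P := by
    intro k
    induction k with
    | zero => intro v; simp
    | succ k ih =>
      rw [pow_succ]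
      exact dmul _ _ ih (dmul _ _ dr dq)
  have dpowr : ∀ k : ℕ, ∀ v, geo cs ((r * q) ^ k * r) v - v ∈ P := fun k => dmul _ _ (dpow k) dr
  have havg : ∀ v, avg cs r q v = 0 → v ∈ P := by
    intro v hv
    have h1 : avg cs r q v - (2 * m : ℝ) • v ∈ P := by
      have h2 : avg cs r q v - (2 * m : ℝ) • v = ∑ k ∈ Finset.range m,
          ((geo cs ((r * q) ^ k) v - v) + (geo cs ((r * q) ^ k * r) v - v)) := by
        have h3 : (2 * m : ℝ) • v = ∑ _k ∈ Finset.range m, (v + v) := by
          rw [Finset.sum_const, Finset.card_range, ← two_smul ℝ v, ← Nat.cast_smul_eq_nsmul ℝ,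
            smul_smul, mul_comm]
        rw [avg_apply, ← hm, h3, ← Finset.sum_sub_distrib]
        apply Finset.sum_congr rfl
        intro k _
        abel
      rw [h2]
      exact P.sum_mem (fun k _ => P.add_mem (dpow k v) (dpowr k v))
    rw [hv, zero_sub] at h1
    have h2 := P.neg_mem h1
    rw [neg_neg] at h2
    have h3 : (2 * m : ℝ) ≠ 0 := by
      have : (0 : ℝ) < m := by exact_mod_cast hm0
      positivity
    have h4 := P.smul_mem (2 * m : ℝ)⁻¹ h2
    rwa [smul_smul, inv_mul_cancel₀ h3, one_smul] at h4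
  -- the finite set of mixed reflections
  set X : Set W := ⋃ k ∈ Finset.range m,
    ({t : W | cs.IsReflection t ∧ cs.length ((r * q) ^ k * t) < cs.length ((r * q) ^ k)} ∪
      {t : W | cs.IsReflection t ∧ cs.length ((r * q) ^ k * r * t) < cs.length ((r * q) ^ k * r)})
    with hX
  have hXfin : X.Finite := by
    apply Set.Finite.biUnion (Finset.finite_toSet _)
    intro k _
    exact (inv_finite _).union (inv_finite _)
  set F : Finset (B →₀ ℝ) := (hXfin.toFinset.image (fun t => avg cs r q (rt cs t))).filter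
    (fun v => v ≠ 0) with hF
  obtain ⟨lam, hl1, hl2⟩ := exists_weights F (fun v hv => (Finset.mem_filter.mp hv).2)
  have hpos : ∀ t, cs.IsReflection t → t ∉ X → 0 < lam (avg cs r q (rt cs t)) := by
    intro t ht htX
    have h1 : ∀ k ∈ Finset.range m, 0 < lam (geo cs ((r * q) ^ k) (rt cs t) +
        geo cs ((r * q) ^ k * r) (rt cs t)) := by
      intro k hk
      rw [map_add]
      apply add_pos
      · apply lam_pos hl1
        · rw [← ((rt_isRt ht).geo _).not_nonpos]
          intro hcon
          apply htX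
          rw [hX, Set.mem_iUnion₂]
          exact ⟨k, hk, Or.inl ⟨ht, (length_gt_iff ht).mpr hcon⟩⟩
        · exact ((rt_isRt ht).geo _).ne_zero
      · apply lam_pos hl1
        · rw [← ((rt_isRt ht).geo _).not_nonpos]
          intro hcon
          apply htX
          rw [hX, Set.mem_iUnion₂]
          exact ⟨k, hk, Or.inr ⟨ht, (length_gt_iff ht).mpr hcon⟩⟩
        · exact ((rt_isRt ht).geo _).ne_zero
    rw [avg_apply, ← hm, map_sum]
    exact Finset.sum_pos h1 ⟨0, Finset.mem_range.mpr hm0⟩
  refine ⟨lam ∘ₗ avg cs r q, hr, hq, hne, hfin, ?_, ?_, ?_, ?_⟩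
  · intro v
    rw [LinearMap.comp_apply, LinearMap.comp_apply, avg_r hr]
  · intro v
    rw [LinearMap.comp_apply, LinearMap.comp_apply, avg_q hr hq]
  · intro t ht h0
    rw [LinearMap.comp_apply] at h0
    by_cases htX : t ∈ X
    · apply havg
      by_contra hne0
      apply hl2 _ _ h0
      rw [hF, Finset.mem_filter, Finset.mem_image]
      exact ⟨⟨t, hXfin.mem_toFinset.mpr htX, rfl⟩, hne0⟩
    · exact absurd h0 (hpos t ht htX).ne'
  · apply hXfin.subset
    rintro t ⟨ht, hneg⟩
    by_contra htX
    rw [LinearMap.comp_apply] at hneg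
    exact absurd hneg (not_lt.mpr (hpos t ht htX).le)

/-- **Induction principle** for pairs of reflections with product of finite order. -/
theorem finite_induction (Q : W → W → Prop)
    (hmove : ∀ r q i, cs.IsReflection r → cs.IsReflection q → r ≠ q → IsOfFinOrder (r * q) →
      ¬ cs.IsReflection (r * q * cs.simple i) →
      Q (cs.simple i * r * cs.simple i) (cs.simple i * q * cs.simple i) → Q r q)
    (hbase : ∀ r q i j, cs.IsReflection r → cs.IsReflection q → r ≠ q →
      r ∈ Subgroup.closure ({cs.simple i, cs.simple j} : Set W) →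
      q ∈ Subgroup.closure ({cs.simple i, cs.simple j} : Set W) → Q r q)
    {r q : W} (hr : cs.IsReflection r) (hq : cs.IsReflection q) (hne : r ≠ q)
    (hfin : IsOfFinOrder (r * q)) : Q r q := by
  obtain ⟨p, hp⟩ := exists_ctx hr hq hne hfin
  induction hn : {t : W | cs.IsReflection t ∧ p (rt cs t) < 0}.ncard using Nat.strong_induction_on
    generalizing r q p with
  | _ n ih =>
  by_cases h0 : ∀ i, 0 ≤ p (ee i)
  · obtain ⟨i, j, h1, h2⟩ := hp.base h0
    exact hbase r q i j hr hq hne h1 h2
  · push Not at h0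
    obtain ⟨i, hi⟩ := h0
    have hc := hp.card_move hi
    have hmv := hp.move hi
    exact hmove r q i hr hq hne hfin (hp.not_refl hi)
      (ih _ (by rw [← hn]; exact hc) hmv.hr hmv.hq hmv.ne hmv.fin _ hmv rfl)

end Pool.Agent.R676.Cox
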